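import Mathlib

section

/-!
Auxiliary results on matrices that are a sum of a low rank matrix and a row-sparse matrix,
and on Kronecker products of such matrices.
-/

namespace Pool.Agent.Lib.MP_07046b_lc

open Matrix Finset

variable {K : Type*} [Field K]

/-- Subadditivity of the rank. -/
theorem rank_add_le' {m n : Type*} [Finite m] [Fintype n] (A B : Matrix m n K) :
    (A + B).rank ≤ A.rank + B.rank := by
  classical
  cases nonempty_fintype m
  have h : LinearMap.range (A + B).mulVecLin ≤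
      LinearMap.range A.mulVecLin ⊔ LinearMap.range B.mulVecLin := by
    rintro _ ⟨v, rfl⟩
    rw [Matrix.mulVecLin_add, LinearMap.add_apply]
    exact Submodule.add_mem_sup ⟨v, rfl⟩ ⟨v, rfl⟩
  calc (A + B).rank ≤ Module.finrank K
        (LinearMap.range A.mulVecLin ⊔ LinearMap.range B.mulVecLin : Submodule K (m → K)) :=
        Submodule.finrank_mono h
    _ ≤ A.rank + B.rank := Submodule.finrank_add_le_finrank_add_finrank _ _

/-- `Dec E r s`: the matrix `E` is the sum of a matrix with at most `s` nonzero entries in each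
row and of a matrix of rank at most `r`. -/
def Dec {m : Type*} [Fintype m] (E : Matrix m m K) (r s : ℝ) : Prop :=
  ∃ S : Matrix m m K, (∀ x, (Nat.card {y // S x y ≠ 0} : ℝ) ≤ s) ∧ ((E - S).rank : ℝ) ≤ r

theorem Dec.mono {m : Type*} [Fintype m] {E : Matrix m m K} {r s r' s' : ℝ}
    (h : Dec E r s) (hr : r ≤ r') (hs : s ≤ s') : Dec E r' s' := by
  obtain ⟨S, h1, h2⟩ := h
  exact ⟨S, fun x => (h1 x).trans hs, h2.trans hr⟩

theorem Dec.mul {m : Type*} [Fintype m] {E F : Matrix m m K} {r s r' s' : ℝ}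
    (hE : Dec E r s) (hF : Dec F r' s') (hs' : 0 ≤ s') :
    Dec (E * F) (r + r') (s * s') := by
  classical
  obtain ⟨S, hS, hSr⟩ := hE
  obtain ⟨T, hT, hTr⟩ := hF
  refine ⟨S * T, ?_, ?_⟩
  · intro x
    have hsub : (univ.filter (fun y => (S * T) x y ≠ 0)) ⊆
        (univ.filter (fun z => S x z ≠ 0)).biUnion (fun z => univ.filter (fun y => T z y ≠ 0)) := by
      intro y hy
      have hy2 : (S * T) x y ≠ 0 := (mem_filter.mp hy).2
      rw [Matrix.mul_apply] at hy2
      obtain ⟨z, -, hz⟩ := Finset.exists_ne_zero_of_sum_ne_zero hy2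
      simp only [mem_biUnion, mem_filter, mem_univ, true_and]
      exact ⟨z, left_ne_zero_of_mul hz, right_ne_zero_of_mul hz⟩
    have hS' : ((univ.filter (fun z => S x z ≠ 0)).card : ℝ) ≤ s := by
      have := hS x
      rwa [Nat.card_eq_fintype_card, Fintype.card_subtype] at this
    have hT' : ∀ z, ((univ.filter (fun y => T z y ≠ 0)).card : ℝ) ≤ s' := by
      intro z
      have := hT z
      rwa [Nat.card_eq_fintype_card, Fintype.card_subtype] at this
    rw [Nat.card_eq_fintype_card, Fintype.card_subtype]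
    calc ((univ.filter (fun y => (S * T) x y ≠ 0)).card : ℝ)
        ≤ (((univ.filter (fun z => S x z ≠ 0)).biUnion
            (fun z => univ.filter (fun y => T z y ≠ 0))).card : ℝ) := by
          exact_mod_cast card_le_card hsub
      _ ≤ ((∑ z ∈ univ.filter (fun z => S x z ≠ 0),
            (univ.filter (fun y => T z y ≠ 0)).card : ℕ) : ℝ) := by
          exact_mod_cast card_biUnion_le
      _ = ∑ z ∈ univ.filter (fun z => S x z ≠ 0),
            ((univ.filter (fun y => T z y ≠ 0)).card : ℝ) := by push_cast; rfl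
      _ ≤ ∑ z ∈ univ.filter (fun z => S x z ≠ 0), s' := Finset.sum_le_sum (fun z _ => hT' z)
      _ = ((univ.filter (fun z => S x z ≠ 0)).card : ℝ) * s' := by rw [sum_const, nsmul_eq_mul]
      _ ≤ s * s' := mul_le_mul_of_nonneg_right hS' hs'
  · have heq : E * F - S * T = (E - S) * F + S * (F - T) := by
      rw [Matrix.sub_mul, Matrix.mul_sub]; abel
    rw [heq]
    calc ((((E - S) * F + S * (F - T)).rank : ℕ) : ℝ)
        ≤ ((((E - S) * F).rank + (S * (F - T)).rank : ℕ) : ℝ) := by
          exact_mod_cast rank_add_le' _ _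
      _ ≤ (((E - S).rank + (F - T).rank : ℕ) : ℝ) := by
          exact_mod_cast add_le_add (Matrix.rank_mul_le_left _ _) (Matrix.rank_mul_le_right _ _)
      _ ≤ r + r' := by push_cast; exact add_le_add hSr hTr

theorem Dec.one {m : Type*} [Fintype m] [DecidableEq m] : Dec (1 : Matrix m m K) 0 1 := by
  classical
  refine ⟨1, ?_, ?_⟩
  · intro x
    rw [Nat.card_eq_fintype_card, Fintype.card_subtype]
    have : (univ.filter (fun y => (1 : Matrix m m K) x y ≠ 0)) ⊆ {x} := by
      intro y hy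
      have hy2 : (1 : Matrix m m K) x y ≠ 0 := (mem_filter.mp hy).2
      rw [mem_singleton]
      by_contra h
      exact hy2 (Matrix.one_apply_ne (fun h' => h h'.symm))
    calc ((univ.filter (fun y => (1 : Matrix m m K) x y ≠ 0)).card : ℝ) ≤ (({x} : Finset m).card : ℝ) := by
          exact_mod_cast card_le_card this
      _ = 1 := by simp
  · simp [Matrix.rank_zero]

/-- The decomposition of a product of matrices. -/
theorem Dec.prod {m : Type*} [Fintype m] [DecidableEq m] (b : ℕ) (E : ℕ → Matrix m m K)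
    (r s : ℕ → ℝ) (hs : ∀ i < b, 0 ≤ s i) (h : ∀ i < b, Dec (E i) (r i) (s i)) :
    Dec ((List.range b).map E).prod (∑ i ∈ range b, r i) (∏ i ∈ range b, s i) := by
  induction b with
  | zero => simpa using Dec.one
  | succ b ih =>
    rw [List.range_succ, List.map_append, List.prod_append, Finset.sum_range_succ,
      Finset.prod_range_succ]
    simp only [List.map_cons, List.map_nil, List.prod_cons, List.prod_nil, mul_one]
    exact (ih (fun i hi => hs i (by omega)) (fun i hi => h i (by omega))).mul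
      (h b (by omega)) (hs b (by omega))

section kron

variable {ι : Type*} [Fintype ι] {α : ι → Type*}

/-- The Kronecker product of a finite family of matrices. -/
def kron (M : ∀ l, Matrix (α l) (α l) K) : Matrix (∀ l, α l) (∀ l, α l) K :=
  fun x y => ∏ l, M l (x l) (y l)

theorem kron_apply (M : ∀ l, Matrix (α l) (α l) K) (x y : ∀ l, α l) :
    kron M x y = ∏ l, M l (x l) (y l) := rfl

theorem kron_mul [DecidableEq ι] [∀ l, Fintype (α l)] (A B : ∀ l, Matrix (α l) (α l) K) :
    kron (fun l => A l * B l) = kron A * kron B := by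
  classical
  ext x y
  simp only [kron_apply, Matrix.mul_apply]
  rw [Finset.prod_univ_sum]
  simp only [Fintype.piFinset_univ]
  refine Finset.sum_congr rfl (fun z _ => ?_)
  rw [Finset.prod_mul_distrib]

theorem kron_one [∀ l, DecidableEq (α l)] :
    kron (fun l => (1 : Matrix (α l) (α l) K)) = 1 := by
  classical
  ext x y
  rw [kron_apply, Matrix.one_apply]
  simp only [Matrix.one_apply]
  rw [Finset.prod_ite_zero]
  simp only [mem_univ, true_implies, prod_const_one]
  by_cases h : x = y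
  · subst h; simp
  · rw [if_neg h, if_neg]
    exact fun h' => h (funext h')

end kron

end Pool.Agent.Lib.MP_07046b_lc
end

section

/-!
A lower bound for the number of primes in `(n/4, n]`.
-/

namespace Pool.Agent.Lib.MP_07046b_lc

open Finset

/-- The primes in `(n/4, n]`. -/
def P (n : ℕ) : Finset ℕ := (Finset.Icc 0 n).filter (fun p => p.Prime ∧ n < 4 * p)

theorem card_P_ge (n : ℕ) (hn : 1 ≤ n) :
    (n : ℝ) * Real.log 2 / 2 - Real.log (n + 1) - 2 * √n * Real.log n ≤ (P n).card * Real.log n := by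
  have h1 := Chebyshev.theta_ge n
  have h2 : Chebyshev.theta n ≤ (P n).card * Real.log n + Chebyshev.theta ((n : ℝ) / 4) := by
    rw [Chebyshev.theta_eq_sum_Icc, Chebyshev.theta_eq_sum_Icc, Nat.floor_natCast]
    have hsub : (Finset.Icc 0 n).filter (fun p => p.Prime) ⊆
        P n ∪ (Finset.Icc 0 ⌊(n : ℝ) / 4⌋₊).filter (fun p => p.Prime) := by
      intro p hp
      rw [mem_filter, mem_Icc] at hp
      rw [mem_union]
      by_cases h : n < 4 * p
      · left
        rw [P, mem_filter, mem_Icc]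
        exact ⟨hp.1, hp.2, h⟩
      · right
        rw [mem_filter, mem_Icc]
        refine ⟨⟨Nat.zero_le _, ?_⟩, hp.2⟩
        apply Nat.le_floor
        rw [le_div_iff₀ (by norm_num)]
        have : 4 * p ≤ n := not_lt.mp h
        have : ((4 * p : ℕ) : ℝ) ≤ n := by exact_mod_cast this
        push_cast at this
        linarith
    calc ∑ p ∈ (Finset.Icc 0 n).filter (fun p => p.Prime), Real.log (p : ℝ)
        ≤ ∑ p ∈ P n ∪ (Finset.Icc 0 ⌊(n : ℝ) / 4⌋₊).filter (fun p => p.Prime), Real.log (p : ℝ) :=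
          Finset.sum_le_sum_of_subset_of_nonneg hsub (fun p _ _ => Real.log_natCast_nonneg p)
      _ ≤ ∑ p ∈ P n, Real.log (p : ℝ) +
          ∑ p ∈ (Finset.Icc 0 ⌊(n : ℝ) / 4⌋₊).filter (fun p => p.Prime), Real.log (p : ℝ) := by
          rw [← Finset.sum_union_inter]
          have : 0 ≤ ∑ p ∈ P n ∩ (Finset.Icc 0 ⌊(n : ℝ) / 4⌋₊).filter (fun p => p.Prime),
            Real.log (p : ℝ) := Finset.sum_nonneg (fun p _ => Real.log_natCast_nonneg p)
          linarith
      _ ≤ (P n).card * Real.log n +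
          ∑ p ∈ (Finset.Icc 0 ⌊(n : ℝ) / 4⌋₊).filter (fun p => p.Prime), Real.log (p : ℝ) := by
          gcongr
          rw [← nsmul_eq_mul, ← Finset.sum_const]
          refine Finset.sum_le_sum (fun p hp => ?_)
          rw [P, mem_filter, mem_Icc] at hp
          exact Real.log_le_log (by exact_mod_cast hp.2.1.pos) (by exact_mod_cast hp.1.2)
  have h3 : Chebyshev.theta ((n : ℝ) / 4) ≤ Real.log 4 * ((n : ℝ) / 4) :=
    Chebyshev.theta_le_log4_mul_x (by positivity)
  have h4 : Real.log 4 = 2 * Real.log 2 := by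
    rw [show (4 : ℝ) = 2 ^ 2 by norm_num, Real.log_pow]; push_cast; ring
  rw [h4] at h3
  linarith

theorem eventually_card_P_ge : ∀ᶠ n : ℕ in Filter.atTop,
    (n : ℝ) / 4 ≤ (P n).card * Real.log n := by
  have h1 : ∀ᶠ x : ℝ in Filter.atTop, ‖Real.log x‖ ≤ (1 / 100) * ‖x ^ (1 / 2 : ℝ)‖ :=
    (isLittleO_log_rpow_atTop (show (0 : ℝ) < 1 / 2 by norm_num)).bound (by norm_num)
  have h2 : ∀ᶠ n : ℕ in Filter.atTop, ‖Real.log (n : ℝ)‖ ≤ (1 / 100) * ‖(n : ℝ) ^ (1 / 2 : ℝ)‖ :=
    tendsto_natCast_atTop_atTop.eventually h1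
  have h3 : ∀ᶠ n : ℕ in Filter.atTop, 1000 ≤ n := Filter.eventually_ge_atTop 1000
  filter_upwards [h2, h3] with n h2 h3
  have hn : (1000 : ℝ) ≤ n := by exact_mod_cast h3
  have hlog0 : 0 ≤ Real.log n := Real.log_natCast_nonneg n
  rw [← Real.sqrt_eq_rpow, Real.norm_of_nonneg hlog0, Real.norm_of_nonneg (Real.sqrt_nonneg _)] at h2
  have h4 := card_P_ge n (by omega)
  have hsq : √(n : ℝ) * √(n : ℝ) = n := Real.mul_self_sqrt (by positivity)
  have h5 : 2 * √(n : ℝ) * Real.log n ≤ (1 / 50) * n := by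
    have : √(n : ℝ) * Real.log n ≤ √(n : ℝ) * ((1 / 100) * √(n : ℝ)) :=
      mul_le_mul_of_nonneg_left h2 (Real.sqrt_nonneg _)
    nlinarith
  have h6 : Real.log ((n : ℝ) + 1) ≤ (1 / 50) * n := by
    have h7 : Real.log ((n : ℝ) + 1) ≤ Real.log (n * n) := by
      apply Real.log_le_log (by positivity)
      nlinarith
    rw [Real.log_mul (by positivity) (by positivity)] at h7
    have h8 : √(n : ℝ) ≤ n := by
      nlinarith [Real.sqrt_nonneg (n : ℝ), show (1 : ℝ) ≤ √(n : ℝ) by
        rw [Real.one_le_sqrt]; linarith]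
    linarith
  have h7 : (0.6931471803 : ℝ) < Real.log 2 := Real.log_two_gt_d9
  nlinarith

end Pool.Agent.Lib.MP_07046b_lc
end

section

/-!
The Kronecker product of matrices that agree with the identity outside a small set of columns.
-/

namespace Pool.Agent.Lib.MP_07046b_lc

open Matrix Finset

/-- The number of subsets with at most `n` elements of a set with `k` elements. -/
theorem card_small_subsets_le {ι : Type*} [Fintype ι] [DecidableEq ι] (n : ℕ) :
    (univ.filter (fun U : Finset ι => U.card ≤ n)).card ≤ (Fintype.card ι + 1) ^ n := by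
  have h1 : (univ.filter (fun U : Finset ι => U.card ≤ n)) ⊆
      (range (n + 1)).biUnion (fun j => powersetCard j (univ : Finset ι)) := by
    intro U hU
    have hU2 := (mem_filter.mp hU).2
    rw [mem_biUnion]
    exact ⟨U.card, by rw [mem_range]; omega, by rw [mem_powersetCard]; exact ⟨subset_univ _, rfl⟩⟩
  calc (univ.filter (fun U : Finset ι => U.card ≤ n)).card
      ≤ ((range (n + 1)).biUnion (fun j => powersetCard j (univ : Finset ι))).card :=
        card_le_card h1
    _ ≤ ∑ j ∈ range (n + 1), (powersetCard j (univ : Finset ι)).card := card_biUnion_le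
    _ = ∑ j ∈ range (n + 1), (Fintype.card ι).choose j := by
        simp [card_powersetCard]
    _ ≤ ∑ j ∈ range (n + 1), (Fintype.card ι) ^ j * 1 ^ (n - j) * n.choose j := by
        refine Finset.sum_le_sum (fun j hj => ?_)
        rw [mem_range] at hj
        have h2 : 1 ≤ n.choose j := Nat.choose_pos (by omega)
        calc (Fintype.card ι).choose j ≤ (Fintype.card ι) ^ j := Nat.choose_le_pow _ _
          _ = (Fintype.card ι) ^ j * 1 ^ (n - j) * 1 := by simp
          _ ≤ _ := Nat.mul_le_mul_left _ h2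
    _ = (Fintype.card ι + 1) ^ n := by rw [add_pow]; simp only [Nat.cast_id]

section

variable {ι : Type*} [Fintype ι] [DecidableEq ι] {q : ι → ℕ}

/-- The number of coordinates of `x` that lie in the blocks. -/
def cnt (J : ∀ l, Finset (Fin (q l))) (x : ∀ l, Fin (q l)) : ℕ :=
  (univ.filter (fun l => x l ∈ J l)).card

theorem sum_pow_cnt_le (J : ∀ l, Finset (Fin (q l))) (hq : ∀ l, 0 < q l) (u : ℝ) (hu : 0 ≤ u) :
    ∑ x : (∀ l, Fin (q l)), u ^ (cnt J x) ≤
      (∏ l, (q l : ℝ)) * Real.exp ((u - 1) * ∑ l, ((J l).card : ℝ) / q l) := by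
  have h1 : ∀ x : (∀ l, Fin (q l)), u ^ (cnt J x) = ∏ l, (if x l ∈ J l then u else 1) := by
    intro x
    rw [cnt, ← Finset.prod_filter, Finset.prod_const]
  have h2 : ∑ x : (∀ l, Fin (q l)), u ^ (cnt J x) =
      ∏ l, ∑ a : Fin (q l), (if a ∈ J l then u else 1) := by
    rw [Finset.prod_univ_sum]
    simp only [Fintype.piFinset_univ]
    exact Finset.sum_congr rfl (fun x _ => h1 x)
  have h3 : ∀ l, ∑ a : Fin (q l), (if a ∈ J l then u else 1) =
      (q l : ℝ) * (1 + (u - 1) * (((J l).card : ℝ) / q l)) := by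
    intro l
    have hql : (q l : ℝ) ≠ 0 := by exact_mod_cast (hq l).ne'
    have : ∀ a : Fin (q l), (if a ∈ J l then u else 1) = 1 + (if a ∈ J l then (u - 1) else 0) := by
      intro a; split_ifs <;> ring
    simp only [this]
    rw [Finset.sum_add_distrib, Finset.sum_const, ← Finset.sum_filter, Finset.sum_const]
    simp only [card_univ, Fintype.card_fin, nsmul_eq_mul, mul_one, Finset.filter_univ_mem]
    field_simp
  rw [h2, Finset.mul_sum, Real.exp_sum, ← Finset.prod_mul_distrib]
  refine Finset.prod_le_prod (fun l _ => ?_) (fun l _ => ?_)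
  · exact Finset.sum_nonneg (fun a _ => by split_ifs <;> linarith)
  · rw [h3 l]
    refine mul_le_mul_of_nonneg_left ?_ (by positivity)
    have := Real.add_one_le_exp ((u - 1) * (((J l).card : ℝ) / q l))
    linarith

theorem card_upper_tail (J : ∀ l, Finset (Fin (q l))) (hq : ∀ l, 0 < q l) (u c : ℝ) (hu : 1 ≤ u) :
    ((univ.filter (fun x : (∀ l, Fin (q l)) => c < (cnt J x : ℝ))).card : ℝ) ≤
      (∏ l, (q l : ℝ)) * Real.exp ((u - 1) * (∑ l, ((J l).card : ℝ) / q l) - c * Real.log u) := by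
  have hu0 : 0 < u := by linarith
  have h1 := sum_pow_cnt_le J hq u hu0.le
  have h2 : ((univ.filter (fun x : (∀ l, Fin (q l)) => c < (cnt J x : ℝ))).card : ℝ) *
      u ^ c ≤ ∑ x : (∀ l, Fin (q l)), u ^ (cnt J x) := by
    rw [← nsmul_eq_mul, ← Finset.sum_const]
    calc ∑ x ∈ univ.filter (fun x : (∀ l, Fin (q l)) => c < (cnt J x : ℝ)), u ^ c
        ≤ ∑ x ∈ univ.filter (fun x : (∀ l, Fin (q l)) => c < (cnt J x : ℝ)), u ^ (cnt J x) := by
          refine Finset.sum_le_sum (fun x hx => ?_)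
          rw [← Real.rpow_natCast]
          exact Real.rpow_le_rpow_of_exponent_le hu (mem_filter.mp hx).2.le
      _ ≤ ∑ x : (∀ l, Fin (q l)), u ^ (cnt J x) :=
          Finset.sum_le_sum_of_subset_of_nonneg (filter_subset _ _) (fun x _ _ => by positivity)
  have h3 : 0 < u ^ c := Real.rpow_pos_of_pos hu0 c
  have h4 := h2.trans h1
  have h5 : u ^ c = Real.exp (c * Real.log u) := by
    rw [Real.rpow_def_of_pos hu0, mul_comm]
  rw [Real.exp_sub, ← h5, ← mul_div_assoc, le_div_iff₀ h3]
  exact h4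

theorem card_lower_tail (J : ∀ l, Finset (Fin (q l))) (hq : ∀ l, 0 < q l) (u a : ℝ) (hu0 : 0 < u)
    (hu : u ≤ 1) :
    ((univ.filter (fun x : (∀ l, Fin (q l)) => (cnt J x : ℝ) < a)).card : ℝ) ≤
      (∏ l, (q l : ℝ)) * Real.exp ((u - 1) * (∑ l, ((J l).card : ℝ) / q l) - a * Real.log u) := by
  have h1 := sum_pow_cnt_le J hq u hu0.le
  have h2 : ((univ.filter (fun x : (∀ l, Fin (q l)) => (cnt J x : ℝ) < a)).card : ℝ) *
      u ^ a ≤ ∑ x : (∀ l, Fin (q l)), u ^ (cnt J x) := by
    rw [← nsmul_eq_mul, ← Finset.sum_const]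
    calc ∑ x ∈ univ.filter (fun x : (∀ l, Fin (q l)) => (cnt J x : ℝ) < a), u ^ a
        ≤ ∑ x ∈ univ.filter (fun x : (∀ l, Fin (q l)) => (cnt J x : ℝ) < a), u ^ (cnt J x) := by
          refine Finset.sum_le_sum (fun x hx => ?_)
          rw [← Real.rpow_natCast]
          exact Real.rpow_le_rpow_of_exponent_ge hu0 hu (mem_filter.mp hx).2.le
      _ ≤ ∑ x : (∀ l, Fin (q l)), u ^ (cnt J x) :=
          Finset.sum_le_sum_of_subset_of_nonneg (filter_subset _ _) (fun x _ _ => by positivity)
  have h3 : 0 < u ^ a := Real.rpow_pos_of_pos hu0 a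
  have h4 := h2.trans h1
  have h5 : u ^ a = Real.exp (a * Real.log u) := by
    rw [Real.rpow_def_of_pos hu0, mul_comm]
  rw [Real.exp_sub, ← h5, ← mul_div_assoc, le_div_iff₀ h3]
  exact h4

theorem card_upper_tail' (J : ∀ l, Finset (Fin (q l))) (hq : ∀ l, 0 < q l) (m τ : ℝ)
    (hm : 0 < m) (hτ : 0 ≤ τ) (hτm : τ ≤ m) (hμ : ∑ l, ((J l).card : ℝ) / q l ≤ m) :
    ((univ.filter (fun x : (∀ l, Fin (q l)) =>
      (∑ l, ((J l).card : ℝ) / q l) + τ < (cnt J x : ℝ))).card : ℝ) ≤
      (∏ l, (q l : ℝ)) * Real.exp (-(τ ^ 2 / (8 * m))) := by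
  set μ := ∑ l, ((J l).card : ℝ) / q l with hμdef
  have hμ0 : 0 ≤ μ := Finset.sum_nonneg (fun l _ => by positivity)
  set v := τ / (2 * m) with hv
  have hv0 : 0 ≤ v := by positivity
  have hv1 : v ≤ 1 := by rw [hv, div_le_one (by positivity)]; linarith
  have h1 := card_upper_tail J hq (1 + v) (μ + τ) (by linarith)
  refine h1.trans (mul_le_mul_of_nonneg_left (Real.exp_le_exp.mpr ?_) (by positivity))
  rw [← hμdef]
  have hlog : v / (1 + v) ≤ Real.log (1 + v) := by
    have := Real.one_sub_inv_le_log_of_pos (show 0 < 1 + v by linarith)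
    have e : 1 - (1 + v)⁻¹ = v / (1 + v) := by field_simp; ring
    linarith [e ▸ this]
  have hvm : v * μ ≤ τ / 2 := by
    calc v * μ ≤ v * m := mul_le_mul_of_nonneg_left hμ hv0
      _ = τ / 2 := by rw [hv]; field_simp
  have h2 : (μ + τ) * (v / (1 + v)) ≤ (μ + τ) * Real.log (1 + v) :=
    mul_le_mul_of_nonneg_left hlog (by linarith)
  have h3 : v * μ - (μ + τ) * (v / (1 + v)) = v * (v * μ - τ) / (1 + v) := by
    field_simp; ring
  have h4 : v * (v * μ - τ) / (1 + v) ≤ -(τ ^ 2 / (8 * m)) := by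
    have h5 : τ ^ 2 / (8 * m) = v * (τ / 4) := by rw [hv]; field_simp; ring
    rw [h5, div_le_iff₀ (by linarith)]
    have h6 : v * (v * μ - τ) ≤ v * (-(τ / 2)) := mul_le_mul_of_nonneg_left (by linarith) hv0
    have h7 : v * (τ / 4) * (1 + v) ≤ v * (τ / 4) * 2 :=
      mul_le_mul_of_nonneg_left (by linarith) (by positivity)
    nlinarith
  have h8 : (1 + v - 1) * μ = v * μ := by ring
  linarith

theorem card_lower_tail' (J : ∀ l, Finset (Fin (q l))) (hq : ∀ l, 0 < q l) (m τ : ℝ)
    (hm : 0 < m) (hτ : 0 ≤ τ) (hτm : τ ≤ m) (hμ : ∑ l, ((J l).card : ℝ) / q l ≤ m) :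
    ((univ.filter (fun x : (∀ l, Fin (q l)) =>
      (cnt J x : ℝ) < (∑ l, ((J l).card : ℝ) / q l) - τ)).card : ℝ) ≤
      (∏ l, (q l : ℝ)) * Real.exp (-(τ ^ 2 / (8 * m))) := by
  set μ := ∑ l, ((J l).card : ℝ) / q l with hμdef
  have hμ0 : 0 ≤ μ := Finset.sum_nonneg (fun l _ => by positivity)
  rcases lt_or_ge (μ - τ) 0 with hneg | hpos
  · have : (univ.filter (fun x : (∀ l, Fin (q l)) => (cnt J x : ℝ) < μ - τ)) = ∅ := by
      rw [Finset.filter_eq_empty_iff]
      intro x _ hx
      have : (0 : ℝ) ≤ cnt J x := by positivity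
      linarith
    rw [this]
    simp only [card_empty, Nat.cast_zero]
    positivity
  set v := τ / (2 * m) with hv
  have hv0 : 0 ≤ v := by positivity
  have hv1 : v ≤ 1 / 2 := by
    rw [hv, div_le_iff₀ (by positivity)]; linarith
  have h1 := card_lower_tail J hq (1 - v) (μ - τ) (by linarith) (by linarith)
  refine h1.trans (mul_le_mul_of_nonneg_left (Real.exp_le_exp.mpr ?_) (by positivity))
  rw [← hμdef]
  have hlog : - (v / (1 - v)) ≤ Real.log (1 - v) := by
    have := Real.one_sub_inv_le_log_of_pos (show 0 < 1 - v by linarith)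
    have hne : (1 - v) ≠ 0 := by linarith
    have e : 1 - (1 - v)⁻¹ = -(v / (1 - v)) := by field_simp; ring
    linarith [e ▸ this]
  have hvm : v * μ ≤ τ / 2 := by
    calc v * μ ≤ v * m := mul_le_mul_of_nonneg_left hμ hv0
      _ = τ / 2 := by rw [hv]; field_simp
  have h2 : (μ - τ) * (-(v / (1 - v))) ≤ (μ - τ) * Real.log (1 - v) :=
    mul_le_mul_of_nonneg_left hlog hpos
  have hne : (1 - v) ≠ 0 := by linarith
  have h3 : -(v * μ) + (μ - τ) * (v / (1 - v)) = v * (v * μ - τ) / (1 - v) := by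
    field_simp; ring
  have h4 : v * (v * μ - τ) / (1 - v) ≤ -(τ ^ 2 / (8 * m)) := by
    have h5 : τ ^ 2 / (8 * m) = v * (τ / 4) := by rw [hv]; field_simp; ring
    rw [h5, div_le_iff₀ (by linarith)]
    have h6 : v * (v * μ - τ) ≤ v * (-(τ / 2)) := mul_le_mul_of_nonneg_left (by linarith) hv0
    have h7 : v * (τ / 4) * (1 - v) ≤ v * (τ / 4) * 1 :=
      mul_le_mul_of_nonneg_left (by linarith) (by positivity)
    nlinarith [mul_nonneg hv0 hτ]
  have h8 : (1 - v - 1) * μ = -(v * μ) := by ring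
  linarith

/-- The Kronecker product of matrices `E l` that agree with the identity outside the columns in
`J l`, with `J l` of size at most `g`: up to a matrix of small rank it is sparse. -/
theorem dec_kron {K : Type*} [Field K] (E : ∀ l, Matrix (Fin (q l)) (Fin (q l)) K)
    (J : ∀ l, Finset (Fin (q l))) (hE : ∀ l x y, y ∉ J l → E l x y = if x = y then 1 else 0)
    (hq : ∀ l, 0 < q l) (g : ℕ) (hg : 1 ≤ g) (hJ : ∀ l, (J l).card ≤ g) (m τ : ℝ)
    (hm : 0 < m) (hτ : 0 ≤ τ) (hτm : τ ≤ m) (hμ : ∑ l, ((J l).card : ℝ) / q l ≤ m) :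
    Dec (kron E) (2 * ((∏ l, (q l : ℝ)) * Real.exp (-(τ ^ 2 / (8 * m)))))
      (((Fintype.card ι : ℝ) + 1) ^ (2 * τ) * (g : ℝ) ^ ((∑ l, ((J l).card : ℝ) / q l) + τ)) := by
  classical
  set μ := ∑ l, ((J l).card : ℝ) / q l with hμdef
  have hμ0 : 0 ≤ μ := Finset.sum_nonneg (fun l _ => by positivity)
  set S : Matrix (∀ l, Fin (q l)) (∀ l, Fin (q l)) K :=
    fun x y => if μ - τ ≤ (cnt J x : ℝ) ∧ (cnt J y : ℝ) ≤ μ + τ then kron E x y else 0 with hS
  refine ⟨S, ?_, ?_⟩
  · intro x
    rw [Nat.card_eq_fintype_card, Fintype.card_subtype]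
    -- the set of the admissible sets of coordinates
    set Zx : Finset ι := univ.filter (fun l => x l ∈ J l) with hZx
    by_cases hx : μ - τ ≤ (cnt J x : ℝ)
    swap
    · have : (univ.filter (fun y => S x y ≠ 0)) = ∅ := by
        rw [Finset.filter_eq_empty_iff]
        intro y _ hy
        exact hy (if_neg (fun h => hx h.1))
      rw [this]
      simp only [card_empty, Nat.cast_zero]
      positivity
    have hsub : (univ.filter (fun y => S x y ≠ 0)) ⊆
        (univ.filter (fun U : Finset ι => U.card ≤ ⌊2 * τ⌋₊ ∧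
          ((Zx ∪ U).card : ℝ) ≤ μ + τ)).biUnion
        (fun U => Fintype.piFinset (fun l => if l ∈ Zx ∪ U then J l else {x l})) := by
      intro y hy
      have hy2 : S x y ≠ 0 := (mem_filter.mp hy).2
      have hy3 : (cnt J y : ℝ) ≤ μ + τ := by
        by_contra h
        exact hy2 (if_neg (fun h' => h h'.2))
      have hy4 : kron E x y ≠ 0 := by
        intro h
        apply hy2
        simp only [hS]
        rw [h]
        split_ifs <;> rfl
      have hy5 : ∀ l, y l ∈ J l ∨ y l = x l := by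
        intro l
        by_contra hcon
        push Not at hcon
        apply hy4
        rw [kron_apply]
        refine Finset.prod_eq_zero (mem_univ l) ?_
        rw [hE l _ _ hcon.1, if_neg (fun h => hcon.2 h.symm)]
      set Zy : Finset ι := univ.filter (fun l => y l ∈ J l) with hZy
      have hZxy : Zx ⊆ Zy := by
        intro l hl
        rw [hZx, mem_filter] at hl
        rw [hZy, mem_filter]
        refine ⟨mem_univ _, ?_⟩
        rcases hy5 l with h | h
        · exact h
        · rw [h]; exact hl.2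
      rw [mem_biUnion]
      have hun : Zx ∪ (Zy \ Zx) = Zy := Finset.union_sdiff_of_subset hZxy
      refine ⟨Zy \ Zx, ?_, ?_⟩
      · rw [mem_filter]
        refine ⟨mem_univ _, ?_, ?_⟩
        · rw [Finset.card_sdiff_of_subset hZxy]
          apply Nat.le_floor
          rw [Nat.cast_sub (card_le_card hZxy)]
          have e1 : (Zy.card : ℝ) = (cnt J y : ℝ) := rfl
          have e2 : (Zx.card : ℝ) = (cnt J x : ℝ) := rfl
          rw [e1, e2]
          linarith
        · rw [hun]; exact hy3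
      · rw [hun, Fintype.mem_piFinset]
        intro l
        by_cases hl : l ∈ Zy
        · rw [if_pos hl]
          exact (mem_filter.mp hl).2
        · rw [if_neg hl, mem_singleton]
          rcases hy5 l with h | h
          · exact absurd (show l ∈ Zy from mem_filter.mpr ⟨mem_univ l, h⟩) hl
          · exact h
    have hinner : ∀ U ∈ (univ.filter (fun U : Finset ι => U.card ≤ ⌊2 * τ⌋₊ ∧
          ((Zx ∪ U).card : ℝ) ≤ μ + τ)),
        ((Fintype.piFinset (fun l => if l ∈ Zx ∪ U then J l else {x l})).card : ℝ) ≤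
          (g : ℝ) ^ (μ + τ) := by
      intro U hU
      have hU2 := (mem_filter.mp hU).2.2
      rw [Fintype.card_piFinset]
      have h1 : ∏ l, (if l ∈ Zx ∪ U then J l else {x l}).card ≤
          ∏ l, (if l ∈ Zx ∪ U then g else 1) := by
        refine Finset.prod_le_prod' (fun l _ => ?_)
        split_ifs
        · exact hJ l
        · simp
      have h2 : ∏ l, (if l ∈ Zx ∪ U then g else 1) = g ^ (Zx ∪ U).card := by
        rw [Finset.prod_ite_mem, Finset.univ_inter, Finset.prod_const]
      rw [h2] at h1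
      calc ((∏ l, (if l ∈ Zx ∪ U then J l else {x l}).card : ℕ) : ℝ)
          ≤ ((g ^ (Zx ∪ U).card : ℕ) : ℝ) := by exact_mod_cast h1
        _ = (g : ℝ) ^ ((Zx ∪ U).card : ℝ) := by rw [Real.rpow_natCast]; push_cast; rfl
        _ ≤ (g : ℝ) ^ (μ + τ) :=
            Real.rpow_le_rpow_of_exponent_le (by exact_mod_cast hg) hU2
    have hcardU : ((univ.filter (fun U : Finset ι => U.card ≤ ⌊2 * τ⌋₊ ∧
          ((Zx ∪ U).card : ℝ) ≤ μ + τ)).card : ℝ) ≤ ((Fintype.card ι : ℝ) + 1) ^ (2 * τ) := by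
      calc ((univ.filter (fun U : Finset ι => U.card ≤ ⌊2 * τ⌋₊ ∧
          ((Zx ∪ U).card : ℝ) ≤ μ + τ)).card : ℝ)
          ≤ ((univ.filter (fun U : Finset ι => U.card ≤ ⌊2 * τ⌋₊)).card : ℝ) := by
            have : (univ.filter (fun U : Finset ι => U.card ≤ ⌊2 * τ⌋₊ ∧
                ((Zx ∪ U).card : ℝ) ≤ μ + τ)) ⊆
                (univ.filter (fun U : Finset ι => U.card ≤ ⌊2 * τ⌋₊)) := by
              intro U hU
              rw [mem_filter] at hU ⊢
              exact ⟨hU.1, hU.2.1⟩
            exact_mod_cast card_le_card this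
        _ ≤ (((Fintype.card ι + 1) ^ ⌊2 * τ⌋₊ : ℕ) : ℝ) := by
            exact_mod_cast card_small_subsets_le _
        _ = ((Fintype.card ι : ℝ) + 1) ^ ((⌊2 * τ⌋₊ : ℕ) : ℝ) := by
            rw [Real.rpow_natCast]; push_cast; rfl
        _ ≤ ((Fintype.card ι : ℝ) + 1) ^ (2 * τ) :=
            Real.rpow_le_rpow_of_exponent_le (by
              have : (0 : ℝ) ≤ Fintype.card ι := by positivity
              linarith) (Nat.floor_le (by positivity))
    calc ((univ.filter (fun y => S x y ≠ 0)).card : ℝ)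
        ≤ ∑ U ∈ (univ.filter (fun U : Finset ι => U.card ≤ ⌊2 * τ⌋₊ ∧
          ((Zx ∪ U).card : ℝ) ≤ μ + τ)),
          ((Fintype.piFinset (fun l => if l ∈ Zx ∪ U then J l else {x l})).card : ℝ) := by
          exact_mod_cast (card_le_card hsub).trans card_biUnion_le
      _ ≤ ∑ U ∈ (univ.filter (fun U : Finset ι => U.card ≤ ⌊2 * τ⌋₊ ∧
          ((Zx ∪ U).card : ℝ) ≤ μ + τ)), (g : ℝ) ^ (μ + τ) := Finset.sum_le_sum hinner
      _ = ((univ.filter (fun U : Finset ι => U.card ≤ ⌊2 * τ⌋₊ ∧
          ((Zx ∪ U).card : ℝ) ≤ μ + τ)).card : ℝ) * (g : ℝ) ^ (μ + τ) := by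
          rw [Finset.sum_const, nsmul_eq_mul]
      _ ≤ _ := mul_le_mul_of_nonneg_right hcardU (by positivity)
  · -- the remainder has small rank
    set A1 : Matrix (∀ l, Fin (q l)) (∀ l, Fin (q l)) K :=
      fun x y => if (cnt J x : ℝ) < μ - τ then kron E x y else 0 with hA1
    set A2 : Matrix (∀ l, Fin (q l)) (∀ l, Fin (q l)) K :=
      fun x y => if μ - τ ≤ (cnt J x : ℝ) ∧ μ + τ < (cnt J y : ℝ) then kron E x y else 0 with hA2
    have hsum : kron E - S = A1 + A2 := by
      ext x y
      have e1 : S x y = if μ - τ ≤ (cnt J x : ℝ) ∧ (cnt J y : ℝ) ≤ μ + τ then kron E x y else 0 :=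
        rfl
      have e2 : A1 x y = if (cnt J x : ℝ) < μ - τ then kron E x y else 0 := rfl
      have e3 : A2 x y = if μ - τ ≤ (cnt J x : ℝ) ∧ μ + τ < (cnt J y : ℝ) then
        kron E x y else 0 := rfl
      rw [Matrix.sub_apply, Matrix.add_apply, e1, e2, e3]
      by_cases h1 : (cnt J x : ℝ) < μ - τ
      · rw [if_neg (fun h => absurd h.1 (not_le.mpr h1)), if_pos h1,
          if_neg (fun h => absurd h.1 (not_le.mpr h1))]
        ring
      · have h1' := not_lt.mp h1
        by_cases h2 : μ + τ < (cnt J y : ℝ)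
        · rw [if_neg (fun h => absurd h.2 (not_le.mpr h2)), if_neg h1, if_pos ⟨h1', h2⟩]
          ring
        · rw [if_pos ⟨h1', not_lt.mp h2⟩, if_neg h1, if_neg (fun h => h2 h.2)]
          ring
    have hr1 : (A1.rank : ℝ) ≤ (∏ l, (q l : ℝ)) * Real.exp (-(τ ^ 2 / (8 * m))) := by
      refine le_trans ?_ (card_lower_tail' J hq m τ hm hτ hτm hμ)
      have := Matrix.rank_le_card_of_support_subset A1
        (univ.filter (fun x : (∀ l, Fin (q l)) => (cnt J x : ℝ) < μ - τ)) (by
          intro x hx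
          rw [Function.mem_support] at hx
          by_contra h
          apply hx
          rw [mem_coe, mem_filter] at h
          funext y
          exact if_neg (fun h' => h ⟨mem_univ _, h'⟩))
      exact_mod_cast this
    have hr2 : (A2.rank : ℝ) ≤ (∏ l, (q l : ℝ)) * Real.exp (-(τ ^ 2 / (8 * m))) := by
      refine le_trans ?_ (card_upper_tail' J hq m τ hm hτ hτm hμ)
      rw [← Matrix.rank_transpose]
      have := Matrix.rank_le_card_of_support_subset A2ᵀ
        (univ.filter (fun x : (∀ l, Fin (q l)) => μ + τ < (cnt J x : ℝ))) (by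
          intro x hx
          rw [Function.mem_support] at hx
          by_contra h
          apply hx
          rw [mem_coe, mem_filter] at h
          funext y
          exact if_neg (fun h' => h ⟨mem_univ _, h'.2⟩))
      exact_mod_cast this
    rw [hsum]
    calc (((A1 + A2).rank : ℕ) : ℝ) ≤ ((A1.rank + A2.rank : ℕ) : ℝ) := by
          exact_mod_cast rank_add_le' _ _
      _ ≤ _ := by push_cast; linarith

end

end Pool.Agent.Lib.MP_07046b_lc
end

section

/-!
Block elimination for the DFT matrix of prime order, and the resulting decomposition of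
Kronecker products of DFT matrices.
-/

namespace Pool.Agent.Lib.MP_07046b_lc

open Matrix Finset

variable {K : Type*} [Field K]

/-- The matrix `ζ ^ (x y)`. -/
def dft (q : ℕ) (ζ : K) : Matrix (Fin q) (Fin q) K := fun x y => ζ ^ ((x : ℕ) * (y : ℕ))

/-- The matrix whose columns below `t` are those of the DFT matrix, and whose other columns are
those of the identity. -/
def stage (q : ℕ) (ζ : K) (t : ℕ) : Matrix (Fin q) (Fin q) K :=
  fun x y => if (y : ℕ) < t then ζ ^ ((x : ℕ) * (y : ℕ)) else if x = y then 1 else 0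

theorem stage_zero (q : ℕ) (ζ : K) : stage q ζ 0 = 1 := by
  ext x y
  rw [Matrix.one_apply]
  simp [stage]

theorem stage_of_le (q : ℕ) (ζ : K) (t : ℕ) (h : q ≤ t) : stage q ζ t = dft q ζ := by
  ext x y
  have : (y : ℕ) < t := lt_of_lt_of_le y.2 h
  simp [stage, dft, this]

theorem stage_isUnit (q : ℕ) (ζ : K) (hζ : orderOf ζ = q) (t : ℕ) :
    IsUnit (stage q ζ t) := by
  classical
  rw [← Matrix.mulVec_injective_iff_isUnit]
  change Function.Injective (Matrix.mulVecLin (stage q ζ t))
  rw [injective_iff_map_eq_zero (Matrix.mulVecLin (stage q ζ t))]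
  intro v hv
  rw [Matrix.mulVecLin_apply] at hv
  -- the polynomial
  set P : Polynomial K := ∑ y : Fin q, if (y : ℕ) < t then Polynomial.C (v y) * Polynomial.X ^ (y : ℕ) else 0
    with hP
  have hrow : ∀ x : Fin q, P.eval (ζ ^ (x : ℕ)) + (if (x : ℕ) < t then 0 else v x) = 0 := by
    intro x
    have h0 : (stage q ζ t).mulVec v x = 0 := by rw [hv]; rfl
    rw [Matrix.mulVec, dotProduct] at h0
    have h1 : ∀ y : Fin q, stage q ζ t x y * v y =
        (if (y : ℕ) < t then v y * (ζ ^ (x : ℕ)) ^ (y : ℕ) else 0) +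
        (if x = y then (if (x : ℕ) < t then 0 else v x) else 0) := by
      intro y
      simp only [stage]
      by_cases hy : (y : ℕ) < t
      · rw [if_pos hy, if_pos hy]
        by_cases hxy : x = y
        · subst hxy
          rw [if_pos rfl, if_pos hy, pow_mul]; ring
        · rw [if_neg hxy, pow_mul]; ring
      · rw [if_neg hy, if_neg hy]
        by_cases hxy : x = y
        · subst hxy
          rw [if_pos rfl, if_pos rfl, if_neg hy]; ring
        · rw [if_neg hxy, if_neg hxy]; ring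
    rw [Finset.sum_congr rfl (fun y _ => h1 y), Finset.sum_add_distrib] at h0
    rw [Finset.sum_ite_eq, if_pos (mem_univ _)] at h0
    have h2 : P.eval (ζ ^ (x : ℕ)) =
        ∑ y : Fin q, (if (y : ℕ) < t then v y * (ζ ^ (x : ℕ)) ^ (y : ℕ) else 0) := by
      rw [hP, Polynomial.eval_finsetSum]
      refine Finset.sum_congr rfl (fun y _ => ?_)
      split_ifs with hy
      · simp
      · simp
    rw [h2]
    exact h0
  have hdeg : P.degree < (min t q : ℕ) := by
    rw [hP]
    refine (Polynomial.degree_sum_le _ _).trans_lt ?_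
    rw [Finset.sup_lt_iff (by exact WithBot.bot_lt_coe _)]
    intro y _
    split_ifs with hy
    · refine (Polynomial.degree_C_mul_X_pow_le _ _).trans_lt ?_
      exact_mod_cast lt_min hy y.2
    · rw [Polynomial.degree_zero]; exact WithBot.bot_lt_coe _
  have hP0 : P = 0 := by
    apply Polynomial.eq_zero_of_degree_lt_of_eval_finset_eq_zero
      (((univ : Finset (Fin q)).filter (fun x : Fin q => (x : ℕ) < t)).image
        (fun x : Fin q => ζ ^ (x : ℕ)))
    · rw [Finset.card_image_of_injOn]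
      · have : ((univ : Finset (Fin q)).filter (fun x : Fin q => (x : ℕ) < t)).card = min t q := by
          rw [Fin.card_filter_val_lt, min_comm]
        rw [this]; exact hdeg
      · intro x _ y _ hxy
        have := pow_injOn_Iio_orderOf (x := ζ) (by rw [hζ]; exact x.2) (by rw [hζ]; exact y.2) hxy
        exact Fin.ext this
    · intro z hz
      rw [mem_image] at hz
      obtain ⟨x, hx, rfl⟩ := hz
      have := hrow x
      rw [if_pos (mem_filter.mp hx).2, add_zero] at this
      exact this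
  funext x
  by_cases hx : (x : ℕ) < t
  · have : P.coeff (x : ℕ) = v x := by
      rw [hP, Polynomial.finsetSum_coeff]
      rw [Finset.sum_eq_single x]
      · rw [if_pos hx]; simp
      · intro y _ hyx
        split_ifs
        · rw [Polynomial.coeff_C_mul_X_pow, if_neg]
          exact fun h => hyx (Fin.ext h.symm)
        · simp
      · intro h; exact absurd (mem_univ _) h
    rw [← this, hP0]; simp
  · have := hrow x
    rw [hP0, if_neg hx] at this
    simpa using this

/-- The factors of the block elimination. -/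
noncomputable def factor (q : ℕ) (ζ : K) (g i : ℕ) : Matrix (Fin q) (Fin q) K :=
  (stage q ζ (i * g))⁻¹ * stage q ζ ((i + 1) * g)

/-- The blocks of columns. -/
def blk (q g i : ℕ) : Finset (Fin q) := univ.filter (fun y => i * g ≤ (y : ℕ) ∧ (y : ℕ) < (i + 1) * g)

theorem blk_card_le (q g i : ℕ) : (blk q g i).card ≤ g := by
  have h : ((blk q g i).map Fin.valEmbedding) ⊆ Finset.Ico (i * g) ((i + 1) * g) := by
    intro y hy
    rw [mem_map] at hy
    obtain ⟨z, hz, rfl⟩ := hy
    rw [mem_Ico]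
    exact (mem_filter.mp hz).2
  have := card_le_card h
  rw [card_map, Nat.card_Ico] at this
  calc (blk q g i).card ≤ (i + 1) * g - i * g := this
    _ = g := by rw [← Nat.sub_mul]; simp

theorem factor_eq (q : ℕ) (ζ : K) (hζ : orderOf ζ = q) (g i : ℕ) (x y : Fin q)
    (hy : y ∉ blk q g i) : factor q ζ g i x y = if x = y then 1 else 0 := by
  have hcol : ∀ z, stage q ζ ((i + 1) * g) z y = stage q ζ (i * g) z y := by
    intro z
    simp only [stage]
    by_cases h1 : (y : ℕ) < i * g
    · rw [if_pos h1, if_pos]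
      calc (y : ℕ) < i * g := h1
        _ ≤ (i + 1) * g := Nat.mul_le_mul_right _ (by omega)
    · rw [if_neg h1, if_neg]
      intro h2
      exact hy (mem_filter.mpr ⟨mem_univ _, not_lt.mp h1, h2⟩)
  rw [factor, Matrix.mul_apply, Finset.sum_congr rfl (fun z _ => by rw [hcol z]),
    ← Matrix.mul_apply, Matrix.nonsing_inv_mul _ ((Matrix.isUnit_iff_isUnit_det _).mp
      (stage_isUnit q ζ hζ _)), Matrix.one_apply]

theorem factor_prod (q : ℕ) (ζ : K) (hζ : orderOf ζ = q) (g b : ℕ) :
    ((List.range b).map (factor q ζ g)).prod = stage q ζ (b * g) := by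
  induction b with
  | zero => simp [stage_zero]
  | succ b ih =>
    rw [List.range_succ, List.map_append, List.prod_append, ih]
    simp only [List.map_cons, List.map_nil, List.prod_cons, List.prod_nil, mul_one]
    rw [factor, Matrix.mul_nonsing_inv_cancel_left _ _ ((Matrix.isUnit_iff_isUnit_det _).mp
      (stage_isUnit q ζ hζ _))]

section

variable {ι : Type*} [Fintype ι] [DecidableEq ι] {q : ι → ℕ}

theorem kron_list_prod {α : ι → Type*} [∀ l, Fintype (α l)] [∀ l, DecidableEq (α l)]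
    (F : ℕ → ∀ l, Matrix (α l) (α l) K) (b : ℕ) :
    ((List.range b).map (fun i => kron (F i))).prod =
      kron (fun l => ((List.range b).map (fun i => F i l)).prod) := by
  induction b with
  | zero => simp [kron_one]
  | succ b ih =>
    rw [List.range_succ, List.map_append, List.prod_append, ih]
    simp only [List.map_append, List.prod_append, List.map_cons, List.map_nil, List.prod_cons,
      List.prod_nil, mul_one]
    rw [kron_mul]

omit [DecidableEq ι] in
theorem sum_blk (hq : ∀ l, 0 < q l) (g b : ℕ) (hb : ∀ l, q l ≤ b * g) :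
    ∑ i ∈ range b, ∑ l, ((blk (q l) g i).card : ℝ) / q l = Fintype.card ι := by
  rw [Finset.sum_comm]
  have : ∀ l, ∑ i ∈ range b, ((blk (q l) g i).card : ℝ) / q l = 1 := by
    intro l
    rw [← Finset.sum_div]
    have h1 : ∑ i ∈ range b, (blk (q l) g i).card = q l := by
      have hdisj : ∀ i ∈ range b, ∀ j ∈ range b, i ≠ j → Disjoint (blk (q l) g i) (blk (q l) g j) := by
        intro i _ j _ hij
        rw [Finset.disjoint_left]
        intro y hy hy'
        have h1 := (mem_filter.mp hy).2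
        have h2 := (mem_filter.mp hy').2
        rcases lt_or_gt_of_ne hij with h | h
        · have : (i + 1) * g ≤ j * g := Nat.mul_le_mul_right _ h
          omega
        · have : (j + 1) * g ≤ i * g := Nat.mul_le_mul_right _ h
          omega
      rw [← Finset.card_biUnion hdisj]
      have : (range b).biUnion (fun i => blk (q l) g i) = univ := by
        rw [Finset.eq_univ_iff_forall]
        intro y
        rw [mem_biUnion]
        have hyb : (y : ℕ) < b * g := lt_of_lt_of_le y.2 (hb l)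
        have hg0 : 0 < g := by
          rcases Nat.eq_zero_or_pos g with h | h
          · rw [h] at hyb; omega
          · exact h
        refine ⟨(y : ℕ) / g, ?_, ?_⟩
        · rw [mem_range]
          exact (Nat.div_lt_iff_lt_mul hg0).mpr hyb
        · refine mem_filter.mpr ⟨mem_univ _, Nat.div_mul_le_self _ _, ?_⟩
          rw [mul_comm]
          exact Nat.lt_mul_div_succ _ hg0
      rw [this, card_univ, Fintype.card_fin]
    have h2 : (∑ i ∈ range b, ((blk (q l) g i).card : ℝ)) = q l := by exact_mod_cast h1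
    rw [h2, div_self (by exact_mod_cast (hq l).ne')]
  simp only [this]
  simp

/-- The decomposition of the Kronecker product of DFT matrices. -/
theorem dec_kron_dft (ζ : ι → K) (hζ : ∀ l, orderOf (ζ l) = q l) (hq : ∀ l, 0 < q l) (g b : ℕ)
    (hg : 1 ≤ g) (hb : ∀ l, q l ≤ b * g) (m τ : ℝ) (hm : 0 < m) (hτ : 0 ≤ τ) (hτm : τ ≤ m)
    (hμ : ∀ i < b, ∑ l, ((blk (q l) g i).card : ℝ) / q l ≤ m) :
    Dec (kron (fun l => dft (q l) (ζ l)))
      (b * (2 * ((∏ l, (q l : ℝ)) * Real.exp (-(τ ^ 2 / (8 * m))))))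
      (((Fintype.card ι : ℝ) + 1) ^ (2 * τ * b) * (g : ℝ) ^ ((Fintype.card ι : ℝ) + τ * b)) := by
  have h1 : ∀ i < b, Dec (kron (fun l => factor (q l) (ζ l) g i))
      (2 * ((∏ l, (q l : ℝ)) * Real.exp (-(τ ^ 2 / (8 * m)))))
      (((Fintype.card ι : ℝ) + 1) ^ (2 * τ) *
        (g : ℝ) ^ ((∑ l, ((blk (q l) g i).card : ℝ) / q l) + τ)) := by
    intro i hi
    exact dec_kron (fun l => factor (q l) (ζ l) g i) (fun l => blk (q l) g i)
      (fun l x y hy => factor_eq (q l) (ζ l) (hζ l) g i x y hy) hq g hg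
      (fun l => blk_card_le _ _ _) m τ hm hτ hτm (hμ i hi)
  have h2 := Dec.prod b (fun i => kron (fun l => factor (q l) (ζ l) g i)) _ _
    (fun i _ => by positivity) h1
  rw [kron_list_prod (fun i l => factor (q l) (ζ l) g i) b] at h2
  have h3 : (fun l => ((List.range b).map (fun i => factor (q l) (ζ l) g i)).prod) =
      (fun l => dft (q l) (ζ l)) := by
    funext l
    have := factor_prod (q l) (ζ l) (hζ l) g b
    rw [stage_of_le _ _ _ (hb l)] at this
    exact this
  rw [h3] at h2
  have hg0 : (0 : ℝ) < g := by exact_mod_cast hg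
  have hk0 : (0 : ℝ) < (Fintype.card ι : ℝ) + 1 := by positivity
  convert h2 using 1
  · rw [Finset.sum_const, card_range, nsmul_eq_mul]
  · rw [Finset.prod_mul_distrib, Finset.prod_const, card_range, ← Real.rpow_natCast,
      ← Real.rpow_mul hk0.le, Finset.prod_congr rfl (fun i _ => by rfl)]
    congr 1
    rw [← Real.rpow_sum_of_pos hg0, Finset.sum_add_distrib, sum_blk hq g b hb, Finset.sum_const,
      card_range, nsmul_eq_mul, mul_comm (b : ℝ) τ]

end

end Pool.Agent.Lib.MP_07046b_lc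
end

section

/-!
The DFT matrix of order a product of distinct primes is a Kronecker product of DFT matrices.
-/

namespace Pool.Agent.Lib.MP_07046b_lc

open Matrix Finset

variable {K : Type*} [Field K]

theorem addChar_sum {A : Type*} [AddCommMonoid A] {ι : Type*} (ψ : AddChar A K) (s : Finset ι)
    (f : ι → A) : ψ (∑ l ∈ s, f l) = ∏ l ∈ s, ψ (f l) := by
  classical
  induction s using Finset.induction_on with
  | empty => simp
  | insert a s ha ih => rw [Finset.sum_insert ha, Finset.prod_insert ha, AddChar.map_add_eq_mul, ih]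

variable {ι : Type*} [Fintype ι] [DecidableEq ι] {q : ι → ℕ}

theorem dft_crt (hq : ∀ l, (q l).Prime) (hinj : Function.Injective q) (ω : K)
    (hω : IsPrimitiveRoot ω (∏ l, q l)) :
    ∃ (e : Fin (∏ l, q l) ≃ (∀ l, Fin (q l))) (ζ : ι → K), (∀ l, orderOf (ζ l) = q l) ∧
      dft (∏ l, q l) ω = (kron (fun l => dft (q l) (ζ l))).submatrix e e := by
  classical
  set N := ∏ l, q l with hN
  have hNpos : 0 < N := Finset.prod_pos (fun l _ => (hq l).pos)
  have : NeZero N := ⟨hNpos.ne'⟩
  have hcop : Pairwise (Function.onFun Nat.Coprime q) := by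
    intro i j hij
    exact (Nat.coprime_primes (hq i) (hq j)).mpr (fun h => hij (hinj h))
  set R := ZMod.prodEquivPi q hcop with hR
  have hRcast : ∀ (a : ℕ) (l : ι), R (a : ZMod N) l = (a : ZMod (q l)) := by
    intro a l
    rw [map_natCast]
    rfl
  set ψ : AddChar (ZMod N) K := AddChar.zmodChar N hω.pow_eq_one with hψ
  have hψnat : ∀ a : ℕ, ψ (a : ZMod N) = ω ^ a := fun a => AddChar.zmodChar_apply' _ a
  set ζ : ι → K := fun l => ψ (R.symm (Pi.single l 1)) with hζ
  have hsingle : ∀ (l : ι) (a : ℕ), ψ (R.symm (Pi.single l (a : ZMod (q l)))) = ζ l ^ a := by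
    intro l a
    have : (Pi.single l (a : ZMod (q l)) : ∀ l, ZMod (q l)) = a • Pi.single l 1 := by
      rw [← Pi.single_smul, nsmul_eq_mul, mul_one]
    rw [this, map_nsmul, AddChar.map_nsmul_eq_pow]
  have hord : ∀ l, orderOf (ζ l) = q l := by
    intro l
    have : Fact (q l).Prime := ⟨hq l⟩
    apply orderOf_eq_prime
    · rw [← hsingle l (q l), ZMod.natCast_self, Pi.single_zero, map_zero, AddChar.map_zero_eq_one]
    · intro h
      have h1 : ψ (R.symm (Pi.single l 1)) = 1 := h
      set z := R.symm (Pi.single l 1) with hz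
      have h2 : ω ^ z.val = 1 := by
        rw [← hψnat, ZMod.natCast_zmod_val]; exact h1
      have h3 : N ∣ z.val := (hω.pow_eq_one_iff_dvd _).mp h2
      have h4 : z.val = 0 := Nat.eq_zero_of_dvd_of_lt h3 (ZMod.val_lt z)
      have h5 : z = 0 := (ZMod.val_eq_zero z).mp h4
      have h6 : (Pi.single l 1 : ∀ l, ZMod (q l)) = 0 := by
        have := congrArg R h5
        rwa [hz, RingEquiv.apply_symm_apply, map_zero] at this
      have h7 := congrFun h6 l
      rw [Pi.single_eq_same, Pi.zero_apply] at h7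
      exact one_ne_zero h7
  -- the bijection
  have hbij : Function.Bijective (fun (i : Fin N) (l : ι) =>
      (⟨(i : ℕ) % q l, Nat.mod_lt _ (hq l).pos⟩ : Fin (q l))) := by
    rw [Fintype.bijective_iff_injective_and_card]
    constructor
    · intro i j hij
      have h1 : R ((i : ℕ) : ZMod N) = R ((j : ℕ) : ZMod N) := by
        funext l
        rw [hRcast, hRcast]
        have h2 := congrArg (fun f => ((f l : Fin (q l)) : ℕ)) hij
        simp only at h2
        exact (ZMod.natCast_eq_natCast_iff' _ _ _).mpr h2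
      have h3 := R.injective h1
      rw [ZMod.natCast_eq_natCast_iff'] at h3
      rw [Nat.mod_eq_of_lt i.2, Nat.mod_eq_of_lt j.2] at h3
      exact Fin.ext h3
    · rw [Fintype.card_fin, Fintype.card_pi]
      simp only [Fintype.card_fin]
      exact hN
  refine ⟨Equiv.ofBijective _ hbij, ζ, hord, ?_⟩
  ext i j
  rw [Matrix.submatrix_apply, kron_apply]
  simp only [dft, Equiv.ofBijective_apply]
  have h1 : ω ^ ((i : ℕ) * (j : ℕ)) = ψ (((i : ℕ) : ZMod N) * ((j : ℕ) : ZMod N)) := by
    rw [← Nat.cast_mul, hψnat]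
  have h2 : (((i : ℕ) : ZMod N) * ((j : ℕ) : ZMod N)) =
      ∑ l, R.symm (Pi.single l ((((i : ℕ) % q l * ((j : ℕ) % q l) : ℕ)) : ZMod (q l))) := by
    apply R.injective
    rw [map_mul, map_sum]
    simp only [RingEquiv.apply_symm_apply]
    rw [Finset.univ_sum_single]
    funext l
    rw [Pi.mul_apply, hRcast, hRcast]
    push_cast
    rw [ZMod.natCast_mod, ZMod.natCast_mod]
  rw [h1, h2, addChar_sum]
  refine Finset.prod_congr rfl (fun l _ => ?_)
  rw [hsingle]

/-- `Dec` is invariant under simultaneous reindexing of rows and columns. -/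
theorem Dec.submatrix {m n : Type*} [Fintype m] [Fintype n] {E : Matrix m m K} {r s : ℝ}
    (h : Dec E r s) (e : n ≃ m) : Dec (E.submatrix e e) r s := by
  obtain ⟨S, h1, h2⟩ := h
  refine ⟨S.submatrix e e, ?_, ?_⟩
  · intro x
    have : Nat.card {y // S.submatrix e e x y ≠ 0} = Nat.card {y // S (e x) y ≠ 0} :=
      Nat.card_congr (e.subtypeEquiv (fun y => by rw [Matrix.submatrix_apply]))
    rw [this]
    exact h1 (e x)
  · have h3 : E.submatrix e e - S.submatrix e e = (E - S).submatrix e e := by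
      ext x y; rfl
    rw [h3, Matrix.rank_submatrix]
    exact h2

end Pool.Agent.Lib.MP_07046b_lc
end

section

/-!
Non-rigidity of the DFT matrices of infinitely many orders, over every field.
-/

namespace Pool.Agent.Lib.MP_07046b_lc

open Matrix Finset

/-- From a decomposition to a count of changed entries. -/
theorem Dec.changes {K : Type*} [Field K] {N : ℕ} {E : Matrix (Fin N) (Fin N) K} {r s : ℝ}
    (h : Dec E r s) : ∃ M' : Matrix (Fin N) (Fin N) K, (M'.rank : ℝ) ≤ r ∧
      (Nat.card {p : Fin N × Fin N // M' p.1 p.2 ≠ E p.1 p.2} : ℝ) ≤ N * s := by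
  classical
  obtain ⟨S, h1, h2⟩ := h
  refine ⟨E - S, h2, ?_⟩
  have e1 : Nat.card {p : Fin N × Fin N // (E - S) p.1 p.2 ≠ E p.1 p.2} =
      Nat.card (Σ x : Fin N, {y // S x y ≠ 0}) := by
    apply Nat.card_congr
    refine Equiv.trans (Equiv.subtypeEquivRight (q := fun p : Fin N × Fin N => S p.1 p.2 ≠ 0)
      (fun p => ?_)) ?_
    · rw [Matrix.sub_apply, ne_eq, sub_eq_self]
    · exact
      { toFun := fun p => ⟨p.1.1, ⟨p.1.2, p.2⟩⟩
        invFun := fun z => ⟨(z.1, z.2.1), z.2.2⟩
        left_inv := fun p => rfl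
        right_inv := fun z => rfl }
  rw [e1, Nat.card_sigma]
  push_cast
  calc ∑ x : Fin N, (Nat.card {y // S x y ≠ 0} : ℝ) ≤ ∑ x : Fin N, s :=
        Finset.sum_le_sum (fun x _ => h1 x)
    _ = N * s := by simp

theorem eventually_exp (ε c η : ℝ) (hε : 0 < ε) (hc : 0 < c) (hη : 0 < η) :
    ∀ᶠ n : ℕ in Filter.atTop, 4 * (n : ℝ) * Real.exp (-(c * (n : ℝ) ^ η)) ≤ ε := by
  have h1 := tendsto_rpow_mul_exp_neg_mul_atTop_nhds_zero (1 / η) c hc
  have h2 : Filter.Tendsto (fun x : ℝ => x ^ η) Filter.atTop Filter.atTop :=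
    tendsto_rpow_atTop hη
  have h3 := (h1.comp h2).comp tendsto_natCast_atTop_atTop
  have h4 : ∀ᶠ n : ℕ in Filter.atTop,
      (((fun x : ℝ => x ^ (1 / η) * Real.exp (-c * x)) ∘ fun x : ℝ => x ^ η) ∘
        (Nat.cast : ℕ → ℝ)) n < ε / 4 :=
    h3.eventually (gt_mem_nhds (by positivity))
  filter_upwards [h4] with n hn
  simp only [Function.comp_apply] at hn
  rw [← Real.rpow_mul (by positivity), mul_one_div_cancel hη.ne', Real.rpow_one] at hn
  have : -c * (n : ℝ) ^ η = -(c * (n : ℝ) ^ η) := by ring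
  rw [this] at hn
  linarith

/-- For all `ε, δ > 0` there are arbitrarily large `N` such that, over every field `K` with a
primitive `N`-th root of unity `ω`, the matrix `(ω ^ (i j))` can be brought to rank at most
`ε N` by changing fewer than `N ^ (1 + δ)` entries. -/
theorem main (ε δ : ℝ) (hε : 0 < ε) (hδ : 0 < δ) (N₀ : ℕ) :
    ∃ N : ℕ, N₀ ≤ N ∧ ∀ (K : Type*) [Field K] (ω : K), IsPrimitiveRoot ω N →
      ∃ M' : Matrix (Fin N) (Fin N) K, (M'.rank : ℝ) ≤ ε * N ∧
        (Nat.card {p : Fin N × Fin N // M' p.1 p.2 ≠ dft N ω p.1 p.2} : ℝ) <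
          (N : ℝ) ^ (1 + δ) := by
  classical
  set η : ℝ := min δ 1 / 30 with hη
  have hη0 : 0 < η := by positivity
  have hη1 : η ≤ 1 / 30 := by
    rw [hη]; gcongr; exact min_le_right _ _
  have hηδ : 14 * η < δ := by
    have : min δ 1 ≤ δ := min_le_left _ _
    rw [hη]; linarith
  have ev1 := eventually_card_P_ge
  have ev2 := eventually_exp ε (η ^ 2 / 256) (η / 2) hε (by positivity) (by positivity)
  have ev3 : ∀ᶠ n : ℕ in Filter.atTop, max 16 (4 * N₀) ≤ n := Filter.eventually_ge_atTop _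
  have ev4 : ∀ᶠ n : ℕ in Filter.atTop, Real.log (n : ℝ) ≤ (n : ℝ) ^ (η / 2) := by
    have h1 : ∀ᶠ x : ℝ in Filter.atTop, ‖Real.log x‖ ≤ 1 * ‖x ^ (η / 2)‖ :=
      (isLittleO_log_rpow_atTop (show (0 : ℝ) < η / 2 by positivity)).bound (by norm_num)
    have h2 := tendsto_natCast_atTop_atTop (R := ℝ) |>.eventually h1
    filter_upwards [h2] with n hn
    rw [one_mul, Real.norm_of_nonneg (Real.log_natCast_nonneg n),
      Real.norm_of_nonneg (by positivity)] at hn
    exact hn
  obtain ⟨n, hn1, hn2, hn3, hn4⟩ := (ev1.and (ev2.and (ev3.and ev4))).exists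
  have hn16 : 16 ≤ n := le_trans (le_max_left _ _) hn3
  have hnN₀ : 4 * N₀ ≤ n := le_trans (le_max_right _ _) hn3
  have hnR : (16 : ℝ) ≤ n := by exact_mod_cast hn16
  have hn0 : (0 : ℝ) < n := by linarith
  set k : ℕ := (P n).card with hk
  have hlogpos : 0 < Real.log (n : ℝ) := Real.log_pos (by linarith)
  have hkR : 0 < (k : ℝ) := by
    by_contra h
    have : (k : ℝ) * Real.log n ≤ 0 := mul_nonpos_of_nonpos_of_nonneg (not_lt.mp h) hlogpos.le
    linarith
  have hkpos : 0 < k := by exact_mod_cast hkR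
  have hkn : (k : ℝ) + 1 ≤ n := by
    have h1 : P n ⊆ Finset.Icc 2 n := by
      intro p hp
      rw [P, mem_filter, mem_Icc] at hp
      rw [mem_Icc]
      exact ⟨hp.2.1.two_le, hp.1.2⟩
    have h2 := card_le_card h1
    rw [Nat.card_Icc] at h2
    have h3 : k + 1 ≤ n := by omega
    exact_mod_cast h3
  -- the parameters
  set g : ℕ := ⌊(n : ℝ) ^ η⌋₊ with hg
  have hnη1 : 1 ≤ (n : ℝ) ^ η := Real.one_le_rpow (by linarith) hη0.le
  have hg1 : 1 ≤ g := Nat.le_floor (by exact_mod_cast hnη1)
  have hgR1 : (1 : ℝ) ≤ g := by exact_mod_cast hg1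
  have hgle : (g : ℝ) ≤ (n : ℝ) ^ η := Nat.floor_le (by positivity)
  have hgge : (n : ℝ) ^ η / 2 ≤ g := by
    have : (n : ℝ) ^ η < g + 1 := Nat.lt_floor_add_one _
    linarith
  have hgn : (g : ℝ) ≤ n := by
    calc (g : ℝ) ≤ (n : ℝ) ^ η := hgle
      _ ≤ (n : ℝ) ^ (1 : ℝ) := Real.rpow_le_rpow_of_exponent_le (by linarith) (by linarith)
      _ = n := Real.rpow_one _
  set b : ℕ := n / g + 1 with hb
  have hbR : (b : ℝ) ≤ n / g + 1 := by
    rw [hb]; push_cast
    gcongr
    exact Nat.cast_div_le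
  have hbn : (b : ℝ) ≤ n + 1 := by
    have : (n : ℝ) / g ≤ n := div_le_self hn0.le hgR1
    linarith
  set m : ℝ := 4 * k * g / n with hm
  set τ : ℝ := η * k * g / n with hτ
  have hm0 : 0 < m := by positivity
  have hτ0 : 0 ≤ τ := by positivity
  have hτm : τ ≤ m := by
    rw [hτ, hm]; gcongr; linarith
  have hτb : τ * b ≤ 2 * η * k := by
    calc τ * b ≤ τ * (n / g + 1) := mul_le_mul_of_nonneg_left hbR hτ0
      _ = η * k * (1 + g / n) := by rw [hτ]; field_simp
      _ ≤ η * k * (1 + 1) := by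
          gcongr
          rw [div_le_one hn0]; exact hgn
      _ = 2 * η * k := by ring
  -- the primes
  have hqprime : ∀ l : {p // p ∈ P n}, (l : ℕ).Prime := fun l => by
    have h : (l : ℕ) ∈ P n := l.2
    exact (mem_filter.mp h).2.1
  have hqle : ∀ l : {p // p ∈ P n}, (l : ℕ) ≤ n := fun l => by
    have h : (l : ℕ) ∈ P n := l.2
    exact (mem_Icc.mp (mem_filter.mp h).1).2
  have hqge : ∀ l : {p // p ∈ P n}, n < 4 * (l : ℕ) := fun l => by
    have h : (l : ℕ) ∈ P n := l.2
    exact (mem_filter.mp h).2.2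
  have hcard : Fintype.card {p // p ∈ P n} = k := by rw [Fintype.card_coe]
  set N : ℕ := ∏ l : {p // p ∈ P n}, (l : ℕ) with hN
  have hNpos : 0 < N := Finset.prod_pos (fun l _ => (hqprime l).pos)
  have hNge : (n : ℝ) ^ ((k : ℝ) / 2) ≤ N := by
    have h1 : ∀ l : {p // p ∈ P n}, (n : ℝ) ^ (1 / 2 : ℝ) ≤ ((l : ℕ) : ℝ) := by
      intro l
      have h2 : (n : ℝ) < 4 * ((l : ℕ) : ℝ) := by exact_mod_cast hqge l
      rw [← Real.sqrt_eq_rpow]
      rw [Real.sqrt_le_left (by positivity)]
      nlinarith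
    calc (n : ℝ) ^ ((k : ℝ) / 2) = ((n : ℝ) ^ (1 / 2 : ℝ)) ^ k := by
          rw [← Real.rpow_natCast, ← Real.rpow_mul hn0.le]; congr 1; ring
      _ = ∏ l : {p // p ∈ P n}, (n : ℝ) ^ (1 / 2 : ℝ) := by
          rw [Finset.prod_const, card_univ, hcard]
      _ ≤ ∏ l : {p // p ∈ P n}, ((l : ℕ) : ℝ) :=
          Finset.prod_le_prod (fun l _ => by positivity) (fun l _ => h1 l)
      _ = N := by rw [hN]; push_cast; rfl
  obtain ⟨l₀⟩ : Nonempty {p // p ∈ P n} := by
    rw [← Fintype.card_pos_iff, hcard]; exact hkpos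
  have hNl₀ : (l₀ : ℕ) ≤ N := Nat.le_of_dvd hNpos (Finset.dvd_prod_of_mem _ (mem_univ l₀))
  have hN1 : 1 < (N : ℝ) := by
    have h1 : 2 ≤ (l₀ : ℕ) := (hqprime l₀).two_le
    have : 2 ≤ N := h1.trans hNl₀
    have : (2 : ℝ) ≤ N := by exact_mod_cast this
    linarith
  refine ⟨N, ?_, ?_⟩
  · have := hqge l₀
    omega
  intro K _ ω hω
  obtain ⟨e, ζ, hζ, hdft⟩ := dft_crt (K := K) (q := fun l : {p // p ∈ P n} => (l : ℕ)) hqprime
    Subtype.val_injective ω hω
  have hμ : ∀ i < b, ∑ l : {p // p ∈ P n}, ((blk (l : ℕ) g i).card : ℝ) / ((l : ℕ) : ℝ) ≤ m := by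
    intro i _
    calc ∑ l : {p // p ∈ P n}, ((blk (l : ℕ) g i).card : ℝ) / ((l : ℕ) : ℝ)
        ≤ ∑ l : {p // p ∈ P n}, (g : ℝ) / (n / 4) := by
          refine Finset.sum_le_sum (fun l _ => ?_)
          have h2 : (n : ℝ) < 4 * ((l : ℕ) : ℝ) := by exact_mod_cast hqge l
          have h3 : ((blk (l : ℕ) g i).card : ℝ) ≤ g := by exact_mod_cast blk_card_le _ _ _
          exact div_le_div₀ (by positivity) h3 (by positivity) (by linarith)
      _ = m := by
          rw [Finset.sum_const, card_univ, hcard, nsmul_eq_mul, hm]; field_simp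
  have hdec := dec_kron_dft (K := K) (q := fun l : {p // p ∈ P n} => (l : ℕ)) ζ hζ
    (fun l => (hqprime l).pos) g b hg1 (fun l => by
      have h1 : n < (n / g + 1) * g := by
        have := Nat.lt_mul_div_succ n (show 0 < g from hg1)
        rw [mul_comm]; exact this
      exact (hqle l).trans h1.le) m τ hm0 hτ0 hτm hμ
  have hdec2 := hdec.submatrix e
  rw [← hdft, hcard] at hdec2
  obtain ⟨M', hr, hs⟩ := hdec2.changes
  refine ⟨M', hr.trans ?_, lt_of_le_of_lt hs ?_⟩
  · -- the rank
    have hprod : (∏ l : {p // p ∈ P n}, ((l : ℕ) : ℝ)) = N := by rw [hN]; push_cast; rfl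
    rw [hprod]
    have hexp : (η ^ 2 / 256) * (n : ℝ) ^ (η / 2) ≤ τ ^ 2 / (8 * m) := by
      have h1 : τ ^ 2 / (8 * m) = η ^ 2 * k * g / (32 * n) := by
        rw [hτ, hm]; field_simp; ring
      rw [h1]
      have h2 : (1 : ℝ) / (4 * Real.log n) ≤ k / n := by
        rw [div_le_div_iff₀ (by positivity) hn0]
        linarith
      have h3 : η ^ 2 * k * g / (32 * n) = η ^ 2 / 32 * (k / n) * g := by field_simp
      rw [h3]
      have h4 : (n : ℝ) ^ η = (n : ℝ) ^ (η / 2) * (n : ℝ) ^ (η / 2) := by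
        rw [← Real.rpow_add hn0]; congr 1; ring
      have h5 : 0 < (n : ℝ) ^ (η / 2) := by positivity
      calc (η ^ 2 / 256) * (n : ℝ) ^ (η / 2)
          = η ^ 2 / 32 * (1 / (4 * (n : ℝ) ^ (η / 2))) * ((n : ℝ) ^ η / 2) := by
            rw [h4]; field_simp; norm_num
        _ ≤ η ^ 2 / 32 * (1 / (4 * Real.log n)) * ((n : ℝ) ^ η / 2) := by
            gcongr
        _ ≤ η ^ 2 / 32 * (k / n) * g := by gcongr
    have hexp2 : Real.exp (-(τ ^ 2 / (8 * m))) ≤
        Real.exp (-((η ^ 2 / 256) * (n : ℝ) ^ (η / 2))) := by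
      apply Real.exp_le_exp.mpr; linarith
    calc (b : ℝ) * (2 * (N * Real.exp (-(τ ^ 2 / (8 * m)))))
        ≤ (n + 1) * (2 * (N * Real.exp (-((η ^ 2 / 256) * (n : ℝ) ^ (η / 2))))) := by
          gcongr
      _ = (2 * (n + 1) * Real.exp (-((η ^ 2 / 256) * (n : ℝ) ^ (η / 2)))) * N := by ring
      _ ≤ (4 * n * Real.exp (-((η ^ 2 / 256) * (n : ℝ) ^ (η / 2)))) * N := by
          gcongr ?_ * _ * _
          linarith
      _ ≤ ε * N := by gcongr
  · -- the number of changes
    have hs1 : ((k : ℝ) + 1) ^ (2 * τ * b) * (g : ℝ) ^ ((k : ℝ) + τ * b) ≤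
        (n : ℝ) ^ (7 * η * k) := by
      have h1 : ((k : ℝ) + 1) ^ (2 * τ * b) ≤ (n : ℝ) ^ (4 * η * k) := by
        calc ((k : ℝ) + 1) ^ (2 * τ * b) ≤ (n : ℝ) ^ (2 * τ * b) :=
              Real.rpow_le_rpow (by positivity) hkn (by positivity)
          _ ≤ (n : ℝ) ^ (4 * η * k) :=
              Real.rpow_le_rpow_of_exponent_le (by linarith) (by linarith)
      have h2 : (g : ℝ) ^ ((k : ℝ) + τ * b) ≤ (n : ℝ) ^ (3 * η * k) := by
        calc (g : ℝ) ^ ((k : ℝ) + τ * b) ≤ ((n : ℝ) ^ η) ^ ((k : ℝ) + τ * b) :=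
              Real.rpow_le_rpow (by positivity) hgle (by positivity)
          _ = (n : ℝ) ^ (η * ((k : ℝ) + τ * b)) := by rw [← Real.rpow_mul hn0.le]
          _ ≤ (n : ℝ) ^ (3 * η * k) := by
              apply Real.rpow_le_rpow_of_exponent_le (by linarith)
              have : η * (τ * b) ≤ η * (2 * η * k) := mul_le_mul_of_nonneg_left hτb hη0.le
              have h3 : η * (2 * η * k) ≤ η * (2 * 1 * k) := by gcongr; linarith
              linarith
      calc ((k : ℝ) + 1) ^ (2 * τ * b) * (g : ℝ) ^ ((k : ℝ) + τ * b)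
          ≤ (n : ℝ) ^ (4 * η * k) * (n : ℝ) ^ (3 * η * k) := by gcongr
        _ = (n : ℝ) ^ (7 * η * k) := by rw [← Real.rpow_add hn0]; congr 1; ring
    have hs2 : (n : ℝ) ^ (7 * η * k) ≤ (N : ℝ) ^ (14 * η) := by
      calc (n : ℝ) ^ (7 * η * k) = ((n : ℝ) ^ ((k : ℝ) / 2)) ^ (14 * η) := by
            rw [← Real.rpow_mul hn0.le]; congr 1; ring
        _ ≤ (N : ℝ) ^ (14 * η) := Real.rpow_le_rpow (by positivity) hNge (by positivity)
    calc (N : ℝ) * (((k : ℝ) + 1) ^ (2 * τ * b) * (g : ℝ) ^ ((k : ℝ) + τ * b))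
        ≤ N * (N : ℝ) ^ (14 * η) := by
          apply mul_le_mul_of_nonneg_left (hs1.trans hs2); linarith
      _ < N * (N : ℝ) ^ δ := by
          apply mul_lt_mul_of_pos_left _ (by linarith)
          exact Real.rpow_lt_rpow_of_exponent_lt hN1 hηδ
      _ = (N : ℝ) ^ (1 + δ) := by rw [Real.rpow_add (by linarith), Real.rpow_one]

end Pool.Agent.Lib.MP_07046b_lc
end
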